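import Pool.Agent.H329R3.NU.All

/-!
# MP_4eb066_an: disproof of Q1 (infinite propagation for every bounded weak solution)

For `N = 3`, `m = 3/2`, `s = 3/4`, every `T > 0` and every positive constant in front of the Riesz
kernel (in particular the constant `c(N,s)⁻¹` of the problem) there is a bounded weak solution on
`ℝ³ × (0,T)` whose datum is a positive multiple of the indicator of the unit ball, and which
vanishes outside a fixed ball for all times.
-/

open MeasureTheory Set Filter Topology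

namespace Pool.Agent.Results.MP_4eb066_an.FiniteSpeed

/-- space `ℝ^N` -/
abbrev E (N : ℕ) := EuclideanSpace ℝ (Fin N)

/-- `c(N,s) = π^{N/2-2s} Γ(s) / Γ((N-2s)/2)` -/
noncomputable def cNs (N : ℕ) (s : ℝ) : ℝ :=
  Real.pi ^ ((N : ℝ) / 2 - 2 * s) * Real.Gamma s / Real.Gamma (((N : ℝ) - 2 * s) / 2)

/-- the kernel `c |x|^{-(N-2s)}` -/
noncomputable def riesz (c : ℝ) (N : ℕ) (s : ℝ) (x : E N) : ℝ := c * ‖x‖ ^ (-((N : ℝ) - 2 * s))

/-- the potential `(K * u(·,t))(x)` for a kernel `K` -/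
noncomputable def pot {N : ℕ} (K : E N → ℝ) (u : E N × ℝ → ℝ) (t : ℝ) (x : E N) : ℝ :=
  ∫ y : E N, K (x - y) * u (y, t)

/-- the spatial gradient of the potential -/
noncomputable def gradPot {N : ℕ} (K : E N → ℝ) (u : E N × ℝ → ℝ) (p : E N × ℝ) : E N :=
  gradient (pot K u p.2) p.1

/-- test functions: `C¹` in space-time, `φ(·,t)` compactly supported for each `t ∈ (0,T)`, and `φ`
vanishes near `t = T` -/
structure TestFun (N : ℕ) (T : ℝ) (φ : E N × ℝ → ℝ) : Prop where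
  smooth : ContDiff ℝ 1 φ
  compact : ∀ t ∈ Ioo 0 T, HasCompactSupport (fun x : E N => φ (x, t))
  vanish : ∃ δ > 0, ∀ t ∈ Ioo (T - δ) T, ∀ x : E N, φ (x, t) = 0

/-- `Q_T = ℝ^N × (0,T)` -/
def QT (N : ℕ) (T : ℝ) : Set (E N × ℝ) := univ ×ˢ Ioo 0 T

/-- `u φ_t` -/
noncomputable def timeTerm {N : ℕ} (u φ : E N × ℝ → ℝ) (p : E N × ℝ) : ℝ :=
  u p * fderiv ℝ φ p ((0 : E N), (1 : ℝ))

/-- `u^{m-1} ∇(K * u) · ∇φ` -/
noncomputable def fluxTerm {N : ℕ} (K : E N → ℝ) (m : ℝ) (u φ : E N × ℝ → ℝ) (p : E N × ℝ) : ℝ :=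
  u p ^ (m - 1) * fderiv ℝ φ p (gradPot K u p, (0 : ℝ))

/-- the weak identity (iv) for the test function `φ`, all three integrals being absolutely
convergent -/
structure WeakIdentity {N : ℕ} (K : E N → ℝ) (m T : ℝ) (u₀ : E N → ℝ) (u φ : E N × ℝ → ℝ) :
    Prop where
  int_time : IntegrableOn (timeTerm u φ) (QT N T)
  int_flux : IntegrableOn (fluxTerm K m u φ) (QT N T)
  int_datum : Integrable (fun x : E N => u₀ x * φ (x, (0 : ℝ)))
  eq : (∫ p in QT N T, timeTerm u φ p) - (∫ p in QT N T, fluxTerm K m u φ p)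
      + (∫ x : E N, u₀ x * φ (x, (0 : ℝ))) = 0

/-- `∫ (K * u) ∂_e ψ = - ∫ ⟨∇(K * u), e⟩ ψ` for test functions `ψ` with compact support in `Q_T` -/
def DistribGrad {N : ℕ} (K : E N → ℝ) (T : ℝ) (u : E N × ℝ → ℝ) : Prop :=
  ∀ ψ : E N × ℝ → ℝ, ContDiff ℝ 1 ψ → HasCompactSupport ψ → tsupport ψ ⊆ QT N T → ∀ e : E N,
    ∫ p : E N × ℝ, pot K u p.2 p.1 * fderiv ℝ ψ p (e, (0 : ℝ)) =
      - ∫ p : E N × ℝ, inner ℝ (gradPot K u p) e * ψ p

/-- the potential `K * u` is an absolutely convergent integral at every point of `Q_T` and has a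
classical spatial gradient there, which is integrable over bounded sets (requirement (ii)) and is
also the distributional gradient -/
structure PotReg {N : ℕ} (K : E N → ℝ) (T : ℝ) (u : E N × ℝ → ℝ) : Prop where
  pot_int : ∀ t ∈ Ioo 0 T, ∀ x : E N, Integrable (fun y : E N => K (x - y) * u (y, t))
  pot_diff : ∀ t ∈ Ioo 0 T, Differentiable ℝ (pot K u t)
  grad_int : ∀ R : ℝ, IntegrableOn (gradPot K u) (Metric.ball 0 R ×ˢ Ioo 0 T)
  grad_weak : DistribGrad K T u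

/-- `u` is a weak solution of `u_t = ∇·(u^{m-1} ∇(K * u))` on `Q_T` with datum `u₀` -/
structure IsWeakSol {N : ℕ} (K : E N → ℝ) (m T : ℝ) (u₀ : E N → ℝ) (u : E N × ℝ → ℝ) :
    Prop where
  nonneg : ∀ x : E N, ∀ t ∈ Ioo 0 T, 0 ≤ u (x, t)
  int_u : IntegrableOn u (QT N T)
  pot_reg : PotReg K T u
  flux_int : IntegrableOn (fun p => u p ^ (m - 1) • gradPot K u p) (QT N T)
  weak : ∀ φ : E N × ℝ → ℝ, TestFun N T φ → WeakIdentity K m T u₀ u φ

/-- infinite speed of propagation -/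
def InfiniteSpeed {N : ℕ} (T : ℝ) (u : E N × ℝ → ℝ) : Prop :=
  ∀ t ∈ Ioo 0 T, ∀ R > 0, 0 < volume {x : E N | R ≤ ‖x‖ ∧ 0 < u (x, t)}

/-- the data of Q1: nonnegative, bounded, integrable, compactly supported, not a.e. zero -/
structure Datum {N : ℕ} (u₀ : E N → ℝ) : Prop where
  meas : Measurable u₀
  nonneg : ∀ x, 0 ≤ u₀ x
  bdd : ∃ B, ∀ x, u₀ x ≤ B
  int : Integrable u₀
  cpt : HasCompactSupport u₀
  ne : ¬ (u₀ =ᵐ[volume] 0)

/-- boundedness above on `Q_T` -/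
def BddOn {N : ℕ} (T : ℝ) (u : E N × ℝ → ℝ) : Prop :=
  ∃ B, ∀ x : E N, ∀ t ∈ Ioo 0 T, u (x, t) ≤ B

/-- `u` vanishes outside a fixed ball for all times in `(0,T)` -/
def StaysInBall {N : ℕ} (T : ℝ) (u : E N × ℝ → ℝ) : Prop :=
  ∃ R, ∀ t ∈ Ioo 0 T, ∀ x : E N, R < ‖x‖ → u (x, t) = 0

/-- Q1 of the problem -/
def Q1 : Prop :=
  ∀ N : ℕ, 2 ≤ N → ∀ m ∈ Ioo (1 : ℝ) 2, ∀ s ∈ Ioo (0 : ℝ) 1, ∀ T > 0,
    ∀ (u₀ : E N → ℝ) (u : E N × ℝ → ℝ), Datum u₀ → Measurable u → BddOn T u →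
      IsWeakSol (riesz (cNs N s)⁻¹ N s) m T u₀ u → InfiniteSpeed T u

/-- the datum `l 1_{B_1}` on `ℝ³` -/
noncomputable def bump (l : ℝ) (x : E 3) : ℝ := if ‖x‖ ≤ 1 then l else 0

open Pool.Agent.H329R3.NU (CoreSol AA cc uu GG u0 core_all zero_all bounds_all pot_all weak3_all
  wgrad_all cc_pos AA_pos u0_nonneg u0_eq u0_memLp)

/-! ## change of the time variable -/

theorem measE (T : ℝ) (hT : 0 < T) :
    MeasurableEmbedding (fun p : E 3 × ℝ => (p.1, p.2 / T)) := by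
  have h : (fun p : E 3 × ℝ => (p.1, p.2 / T)) =
      Prod.map id (fun t : ℝ => t / T) := by
    funext p; rfl
  rw [h]
  refine MeasurableEmbedding.prodMap MeasurableEmbedding.id ?_
  exact (Homeomorph.mulRight₀ T⁻¹ (inv_ne_zero hT.ne')).measurableEmbedding

theorem mapE (T : ℝ) (hT : 0 < T) :
    Measure.map (fun p : E 3 × ℝ => (p.1, p.2 / T)) (volume : Measure (E 3 × ℝ)) =
      ENNReal.ofReal T • (volume : Measure (E 3 × ℝ)) := by
  have h : (fun p : E 3 × ℝ => (p.1, p.2 / T)) =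
      Prod.map id (fun t : ℝ => t * T⁻¹) := by
    funext p; rfl
  rw [h, Measure.volume_eq_prod, ← Measure.map_prod_map _ _ measurable_id
    (measurable_mul_const T⁻¹), Measure.map_id, Real.map_volume_mul_right (inv_ne_zero hT.ne'),
    inv_inv, abs_of_pos hT, Measure.prod_smul_right]

theorem preE (T : ℝ) (hT : 0 < T) (A : Set (E 3)) :
    (fun p : E 3 × ℝ => (p.1, p.2 / T)) ⁻¹' (A ×ˢ Ioo (0 : ℝ) 1) = A ×ˢ Ioo (0 : ℝ) T := by
  ext p
  simp only [mem_preimage, mem_prod, mem_Ioo]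
  rw [div_lt_one hT]
  constructor
  · rintro ⟨h1, h2, h3⟩
    exact ⟨h1, by rcases (div_pos_iff.1 h2) with h | h <;> linarith [h.1, h.2], h3⟩
  · rintro ⟨h1, h2, h3⟩
    exact ⟨h1, div_pos h2 hT, h3⟩

theorem cov_int {F : Type} [NormedAddCommGroup F] (T : ℝ) (hT : 0 < T) (f : E 3 × ℝ → F)
    (A : Set (E 3)) (hf : IntegrableOn f (A ×ˢ Ioo (0 : ℝ) 1)) :
    IntegrableOn (fun p : E 3 × ℝ => f (p.1, p.2 / T)) (A ×ˢ Ioo (0 : ℝ) T) := by
  have h1 := (measE T hT).integrableOn_map_iff (μ := (volume : Measure (E 3 × ℝ))) (f := f)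
    (s := A ×ˢ Ioo (0 : ℝ) 1)
  rw [mapE T hT, preE T hT] at h1
  refine h1.1 ?_
  unfold IntegrableOn at hf ⊢
  rw [Measure.restrict_smul]
  exact hf.smul_measure ENNReal.ofReal_ne_top

theorem cov_eq (T : ℝ) (hT : 0 < T) (f : E 3 × ℝ → ℝ) :
    ∫ p in univ ×ˢ Ioo (0 : ℝ) T, f (p.1, p.2 / T) =
      T * ∫ p in (univ ×ˢ Ioo (0 : ℝ) 1 : Set (E 3 × ℝ)), f p := by
  have h1 := (measE T hT).setIntegral_map (μ := (volume : Measure (E 3 × ℝ))) f
    (univ ×ˢ Ioo (0 : ℝ) 1)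
  rw [mapE T hT, preE T hT] at h1
  rw [← h1, Measure.restrict_smul, integral_smul_measure, ENNReal.toReal_ofReal hT.le, smul_eq_mul]

theorem cov_eq' {G : Type} [NormedAddCommGroup G] [NormedSpace ℝ G] (T : ℝ) (hT : 0 < T)
    (f : E 3 × ℝ → G) :
    ∫ p : E 3 × ℝ, f (p.1, p.2 / T) = T • ∫ p : E 3 × ℝ, f p := by
  have h1 := (measE T hT).integral_map (μ := (volume : Measure (E 3 × ℝ))) f
  rw [mapE T hT] at h1
  rw [← h1, integral_smul_measure, ENNReal.toReal_ofReal hT.le]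

/-! ## the scaled solution -/

/-- the scaled density -/
noncomputable def vv (T l κ : ℝ) (w : ℝ × ℝ → ℝ) (p : E 3 × ℝ) : ℝ := l * uu κ w (p.1, p.2 / T)

theorem riesz_eq (c : ℝ) (x : E 3) : riesz c 3 (3 / 4) x = c * ‖x‖ ^ (-(3 / 2) : ℝ) := by
  unfold riesz
  norm_num

theorem pot_eq (c T l κ : ℝ) (w : ℝ × ℝ → ℝ) (t : ℝ) (x : E 3) :
    pot (riesz c 3 (3 / 4)) (vv T l κ w) t x =
      (c * l / cc) * (cc * ∫ y : E 3, ‖x - y‖ ^ (-(3 / 2) : ℝ) * uu κ w (y, t / T)) := by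
  have hc := cc_pos.ne'
  unfold pot vv
  have h : ∀ y : E 3, riesz c 3 (3 / 4) (x - y) * (l * uu κ w (y, t / T)) =
      (c * l) * (‖x - y‖ ^ (-(3 / 2) : ℝ) * uu κ w (y, t / T)) := by
    intro y
    rw [riesz_eq]; ring
  simp only [h]
  rw [integral_const_mul]
  field_simp

theorem hasGrad (c T l κ ε : ℝ) (w : ℝ × ℝ → ℝ) (hκ : 0 < κ) (hw : CoreSol AA κ ε w) (t : ℝ)
    (x : E 3) :
    HasGradientAt (pot (riesz c 3 (3 / 4)) (vv T l κ w) t)
      ((c * l / cc) • GG κ w (x, t / T)) x := by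
  have h := (pot_all κ ε w hκ hw (t / T)).2 x
  have h2 : pot (riesz c 3 (3 / 4)) (vv T l κ w) t =
      fun x : E 3 => (c * l / cc) *
        (cc * ∫ y : E 3, ‖x - y‖ ^ (-(3 / 2) : ℝ) * uu κ w (y, t / T)) := by
    funext z; exact pot_eq c T l κ w t z
  rw [h2]
  have h3 := h.hasFDerivAt.const_mul (c * l / cc)
  rw [hasGradientAt_iff_hasFDerivAt, map_smul]
  exact h3

theorem grad_eq (c T l κ ε : ℝ) (w : ℝ × ℝ → ℝ) (hκ : 0 < κ) (hw : CoreSol AA κ ε w)
    (p : E 3 × ℝ) :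
    gradPot (riesz c 3 (3 / 4)) (vv T l κ w) p = (c * l / cc) • GG κ w (p.1, p.2 / T) :=
  (hasGrad c T l κ ε w hκ hw p.2 p.1).gradient

/-- the support of `uu` -/
theorem uu_zero (κ ε : ℝ) (w : ℝ × ℝ → ℝ) (hκ : 0 < κ) (hw : CoreSol AA κ ε w) (x : E 3) (t : ℝ)
    (ht : t ≤ 1) (hx : Real.exp κ < ‖x‖) : uu κ w (x, t) = 0 := by
  unfold uu
  rw [hw.supp, mul_zero]
  simp only [mem_Ioc, not_and, not_le]
  intro _
  have h1 : Real.exp κ * Real.exp (-κ * t) < ‖x‖ * Real.exp (-κ * t) :=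
    mul_lt_mul_of_pos_right hx (Real.exp_pos _)
  rw [← Real.exp_add] at h1
  have h2 : 1 ≤ Real.exp (κ + -κ * t) := by
    apply Real.one_le_exp
    nlinarith
  linarith

theorem int_of_bdd {F : Type} [NormedAddCommGroup F] (f : E 3 × ℝ → F)
    (hf : AEStronglyMeasurable f (volume : Measure (E 3 × ℝ))) (B : ℝ)
    (hB : ∀ᵐ p ∂((volume : Measure (E 3 × ℝ)).restrict (univ ×ˢ Ioo (0 : ℝ) 1)), ‖f p‖ ≤ B)
    (R : ℝ) (hz : ∀ x : E 3, ∀ t ∈ Ioo (0 : ℝ) 1, R < ‖x‖ → f (x, t) = 0) :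
    IntegrableOn f (univ ×ˢ Ioo (0 : ℝ) 1) := by
  have hsub : (Metric.closedBall (0 : E 3) R ×ˢ Ioo (0 : ℝ) 1) ⊆
      (univ ×ˢ Ioo (0 : ℝ) 1 : Set (E 3 × ℝ)) := prod_mono (subset_univ _) subset_rfl
  have h1 : IntegrableOn f (Metric.closedBall (0 : E 3) R ×ˢ Ioo (0 : ℝ) 1) := by
    refine Measure.integrableOn_of_bounded (M := B) ?_ hf
      (ae_restrict_of_ae_restrict_of_subset hsub hB)
    rw [Measure.volume_eq_prod, Measure.prod_prod]
    exact ENNReal.mul_ne_top measure_closedBall_lt_top.ne (by simp)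
  refine h1.of_forall_sdiff_eq_zero (MeasurableSet.univ.prod measurableSet_Ioo) ?_
  rintro ⟨x, t⟩ ⟨⟨_, ht⟩, h2⟩
  refine hz x t ht ?_
  by_contra h3
  exact h2 ⟨by simpa using not_lt.1 h3, ht⟩

/-- the dilated function -/
theorem fderiv_dil (T : ℝ) (φ : E 3 × ℝ → ℝ) (hφ : ContDiff ℝ 1 φ) (p : E 3 × ℝ) (v : E 3)
    (r : ℝ) :
    fderiv ℝ (fun q : E 3 × ℝ => φ (q.1, T * q.2)) p (v, r) =
      fderiv ℝ φ (p.1, T * p.2) (v, T * r) := by
  have h1 : HasFDerivAt (fun q : E 3 × ℝ => (q.1, T * q.2))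
      ((ContinuousLinearMap.fst ℝ (E 3) ℝ).prod (T • ContinuousLinearMap.snd ℝ (E 3) ℝ)) p :=
    hasFDerivAt_fst.prodMk (hasFDerivAt_snd.const_mul T)
  have h2 : HasFDerivAt φ (fderiv ℝ φ (p.1, T * p.2)) (p.1, T * p.2) :=
    ((hφ.differentiable one_ne_zero) _).hasFDerivAt
  have h3 := h2.comp p h1
  rw [show (fun q : E 3 × ℝ => φ (q.1, T * q.2)) = φ ∘ (fun q : E 3 × ℝ => (q.1, T * q.2))
    from rfl, h3.fderiv]
  simp

theorem contDiff_dil (T : ℝ) (φ : E 3 × ℝ → ℝ) (hφ : ContDiff ℝ 1 φ) :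
    ContDiff ℝ 1 (fun q : E 3 × ℝ => φ (q.1, T * q.2)) :=
  hφ.comp (contDiff_fst.prodMk (contDiff_const.mul contDiff_snd))

/-- the cut-off test function -/
theorem cutoff (T κ : ℝ) (hT : 0 < T) (hκ : 0 < κ) (φ : E 3 × ℝ → ℝ) (hφ : TestFun 3 T φ) :
    ∃ ψ : E 3 × ℝ → ℝ, ContDiff ℝ 1 ψ ∧ HasCompactSupport ψ ∧ tsupport ψ ⊆ {p | p.2 < 1} ∧
      (∀ x : E 3, ‖x‖ ≤ 1 → ψ (x, 0) = φ (x, 0)) ∧
      ∀ x : E 3, ‖x‖ ≤ Real.exp κ → ∀ t ∈ Ioo 0 T, ∀ (v : E 3) (r : ℝ),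
        fderiv ℝ ψ (x, t / T) (v, r) = fderiv ℝ φ (x, t) (v, T * r) := by
  obtain ⟨δ₀, hδ₀, hvan⟩ := hφ.vanish
  set δ : ℝ := min δ₀ T with hδ
  have hδp : 0 < δ := lt_min hδ₀ hT
  have hδT : δ ≤ T := min_le_right _ _
  have hδ1 : δ ≤ δ₀ := min_le_left _ _
  have he := Real.exp_pos κ
  let χ : ContDiffBump (0 : E 3) := ⟨Real.exp κ + 1, Real.exp κ + 2, by linarith, by linarith⟩
  let η : ContDiffBump (-1 : ℝ) := ⟨T - δ / 2 + 1, T - δ / 4 + 1, by linarith, by linarith⟩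
  let φ0 : E 3 × ℝ → ℝ := fun p => χ p.1 * η p.2 * φ p
  have hφ0 : ContDiff ℝ 1 φ0 :=
    ((χ.contDiff.comp contDiff_fst).mul (η.contDiff.comp contDiff_snd)).mul hφ.smooth
  have hχ0 : ∀ x : E 3, Real.exp κ + 2 ≤ ‖x‖ → χ x = 0 := by
    intro x hx
    exact χ.zero_of_le_dist (by simpa using hx)
  have hη0 : ∀ t : ℝ, T - δ / 4 ≤ t ∨ t ≤ -(T - δ / 4 + 2) → η t = 0 := by
    intro t ht
    refine η.zero_of_le_dist ?_
    rw [Real.dist_eq]
    show T - δ / 4 + 1 ≤ |t - -1|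
    rcases ht with ht | ht
    · rw [le_abs]; left; linarith
    · rw [le_abs]; right; linarith
  have hη1 : ∀ t : ℝ, -(T - δ / 2) - 2 ≤ t → t ≤ T - δ / 2 → η t = 1 := by
    intro t h1 h2
    refine η.one_of_mem_closedBall ?_
    rw [Metric.mem_closedBall, Real.dist_eq]
    show |t - -1| ≤ T - δ / 2 + 1
    rw [abs_le]
    constructor <;> linarith
  have hχ1 : ∀ x : E 3, ‖x‖ ≤ Real.exp κ + 1 → χ x = 1 := by
    intro x hx
    refine χ.one_of_mem_closedBall ?_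
    simpa using hx
  have hvan' : ∀ x : E 3, ∀ t ∈ Ioo (T - δ) T, φ (x, t) = 0 :=
    fun x t ht => hvan t ⟨by linarith [ht.1], ht.2⟩ x
  -- local agreement
  have hloc : ∀ x : E 3, ‖x‖ ≤ Real.exp κ → ∀ t ∈ Ioo 0 T, φ0 =ᶠ[𝓝 (x, t)] φ := by
    intro x hx t ht
    have hx' : ∀ᶠ p : E 3 × ℝ in 𝓝 (x, t), ‖p.1‖ < Real.exp κ + 1 :=
      (continuous_fst.norm.tendsto (x, t)).eventually_lt_const (by simpa using by linarith)
    have ht' : ∀ᶠ p : E 3 × ℝ in 𝓝 (x, t), 0 < p.2 :=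
      (continuous_snd.tendsto (x, t)).eventually_const_lt ht.1
    have ht'' : ∀ᶠ p : E 3 × ℝ in 𝓝 (x, t), p.2 < T :=
      (continuous_snd.tendsto (x, t)).eventually_lt_const ht.2
    filter_upwards [hx', ht', ht''] with p h1 h2 h3
    show χ p.1 * η p.2 * φ p = φ p
    by_cases h4 : p.2 ≤ T - δ / 2
    · rw [hχ1 _ h1.le, hη1 _ (by linarith) h4]; ring
    · have : φ p = 0 := hvan' p.1 p.2 ⟨by linarith, h3⟩
      rw [this, mul_zero]
  refine ⟨fun q => φ0 (q.1, T * q.2), contDiff_dil T φ0 hφ0, ?_, ?_, ?_, ?_⟩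
  · refine HasCompactSupport.intro
      (K := Metric.closedBall (0 : E 3) (Real.exp κ + 2) ×ˢ
        Icc (-(T - δ / 4 + 2) / T) ((T - δ / 4) / T))
      ((isCompact_closedBall _ _).prod isCompact_Icc) ?_
    rintro ⟨x, t⟩ hp
    show χ x * η (T * t) * φ (x, T * t) = 0
    by_cases h1 : Real.exp κ + 2 ≤ ‖x‖
    · rw [hχ0 x h1]; ring
    · have h2 : t ∉ Icc (-(T - δ / 4 + 2) / T) ((T - δ / 4) / T) := by
        intro h2
        exact hp ⟨by simpa using (not_le.1 h1).le, h2⟩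
      rw [mem_Icc, not_and_or, not_le, not_le, lt_div_iff₀ hT, div_lt_iff₀ hT] at h2
      rw [hη0 (T * t) (by rcases h2 with h | h <;> [right; left] <;> nlinarith)]
      ring
  · have hcl : IsClosed {p : E 3 × ℝ | p.2 ≤ (T - δ / 4) / T} :=
      isClosed_le continuous_snd continuous_const
    refine (closure_minimal ?_ hcl).trans ?_
    · intro p hp
      by_contra h1
      refine hp ?_
      simp only [mem_ofPred_eq, not_le, div_lt_iff₀ hT] at h1
      show χ p.1 * η (T * p.2) * φ (p.1, T * p.2) = 0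
      rw [hη0 (T * p.2) (Or.inl (by nlinarith))]
      ring
    · intro p hp
      simp only [mem_ofPred_eq] at hp ⊢
      refine hp.trans_lt ?_
      rw [div_lt_one hT]
      linarith
  · intro x hx
    show χ x * η (T * 0) * φ (x, T * 0) = φ (x, 0)
    have h1 : (1 : ℝ) ≤ Real.exp κ := Real.one_le_exp hκ.le
    rw [hχ1 x (by linarith), mul_zero, hη1 0 (by linarith) (by linarith)]
    ring
  · intro x hx t ht v r
    rw [fderiv_dil T φ0 hφ0]
    have h1 : T * (t / T) = t := by field_simp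
    simp only [h1]
    rw [(hloc x hx t ht).fderiv_eq]

theorem bump_eq (l : ℝ) : bump l = fun x : E 3 => l * u0 x := by
  funext x
  unfold bump u0
  split_ifs <;> ring

theorem datum (l : ℝ) (hl : 0 < l) : Datum (bump l) := by
  rw [bump_eq]
  have hu : (fun x : E 3 => l * u0 x) =
      (Metric.closedBall (0 : E 3) 1).indicator (fun _ => l) := by
    rw [u0_eq]
    funext x
    by_cases h : x ∈ Metric.closedBall (0 : E 3) 1
    · rw [indicator_of_mem h, indicator_of_mem h, mul_one]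
    · rw [indicator_of_notMem h, indicator_of_notMem h, mul_zero]
  refine ⟨?_, fun x => mul_nonneg hl.le (u0_nonneg x), ⟨l, fun x => ?_⟩, ?_, ?_, ?_⟩
  · rw [hu]; exact measurable_const.indicator measurableSet_closedBall
  · have : u0 x ≤ 1 := by unfold u0; split_ifs <;> norm_num
    nlinarith
  · rw [hu]
    exact (integrable_indicator_iff measurableSet_closedBall).2
      (integrableOn_const measure_closedBall_lt_top.ne)
  · refine HasCompactSupport.intro (isCompact_closedBall (0 : E 3) 1) ?_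
    intro x hx
    rw [show l * u0 x = _ from congrFun hu x, indicator_of_notMem hx]
  · intro h
    rw [hu] at h
    have h1 : volume {x : E 3 | ¬ (Metric.closedBall (0 : E 3) 1).indicator (fun _ => l) x =
        (0 : E 3 → ℝ) x} = 0 := h
    have h2 : Metric.closedBall (0 : E 3) 1 ⊆ {x : E 3 |
        ¬ (Metric.closedBall (0 : E 3) 1).indicator (fun _ => l) x = (0 : E 3 → ℝ) x} := by
      intro x hx
      simp only [mem_ofPred_eq]
      rw [indicator_of_mem hx]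
      exact hl.ne'
    exact (Metric.measure_closedBall_pos volume (0 : E 3) one_pos).ne' (measure_mono_null h2 h1)

theorem isWeakSol (c T κ ε : ℝ) (w : ℝ × ℝ → ℝ) (hc : 0 < c) (hT : 0 < T) (hκ : 0 < κ)
    (hw : CoreSol AA κ ε w) (l : ℝ) (hl : l = (cc / (c * T)) ^ 2) :
    IsWeakSol (riesz c 3 (3 / 4)) (3 / 2) T (bump l) (vv T l κ w) := by
  rw [bump_eq]
  obtain ⟨m1, n1, ⟨B1, b1⟩, m2, ⟨B2, b2⟩, m3, ⟨B3, b3⟩⟩ := bounds_all κ ε w hκ hw
  have hcc := cc_pos
  have hl0 : 0 < l := by rw [hl]; positivity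
  have hzero := uu_zero κ ε w hκ hw
  have hstrip : ∀ᵐ p ∂((volume : Measure (E 3 × ℝ)).restrict (univ ×ˢ Ioo (0 : ℝ) 1)),
      0 ≤ p.2 := Pool.Agent.H329R3.NU.ae_mem_strip
  have hsq : l ^ ((3 / 2 : ℝ) - 1) = cc / (c * T) := by
    rw [hl, show ((3 / 2 : ℝ) - 1) = 1 / 2 by norm_num, ← Real.sqrt_eq_rpow]
    exact Real.sqrt_sq (by positivity)
  have hco : l ^ ((3 / 2 : ℝ) - 1) * (c * l / cc) = l / T := by
    rw [hsq]; field_simp
  have hpow : ∀ p : E 3 × ℝ, 0 ≤ uu κ w p := n1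
  -- the three integrands
  have iu : IntegrableOn (uu κ w) (univ ×ˢ Ioo (0 : ℝ) 1) := by
    refine int_of_bdd _ m1.aestronglyMeasurable B1 ?_ (Real.exp κ)
      (fun x t ht hx => hzero x t ht.2.le hx)
    filter_upwards [hstrip] with p hp
    rw [Real.norm_eq_abs, abs_of_nonneg (n1 p)]
    exact b1 p hp
  have iflux : IntegrableOn (fun p => uu κ w p ^ ((3 / 2 : ℝ) - 1) • GG κ w p)
      (univ ×ˢ Ioo (0 : ℝ) 1) := by
    refine int_of_bdd _ ((m1.pow_const _).smul m3).aestronglyMeasurable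
      (B1 ^ ((3 / 2 : ℝ) - 1) * B3) ?_ (Real.exp κ) (fun x t ht hx => ?_)
    · filter_upwards [hstrip, b3] with p hp hq
      rw [norm_smul, Real.norm_eq_abs, abs_of_nonneg (Real.rpow_nonneg (n1 p) _)]
      have h1 : uu κ w p ^ ((3 / 2 : ℝ) - 1) ≤ B1 ^ ((3 / 2 : ℝ) - 1) :=
        Real.rpow_le_rpow (n1 p) (b1 p hp) (by norm_num)
      exact mul_le_mul h1 hq (norm_nonneg _) ((Real.rpow_nonneg (n1 p) _).trans h1)
    · simp only [hzero x t ht.2.le hx]
      rw [Real.zero_rpow (by norm_num), zero_smul]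
  have hflux : ∀ p : E 3 × ℝ, vv T l κ w p ^ ((3 / 2 : ℝ) - 1) =
      l ^ ((3 / 2 : ℝ) - 1) * uu κ w (p.1, p.2 / T) ^ ((3 / 2 : ℝ) - 1) :=
    fun p => Real.mul_rpow hl0.le (n1 _)
  refine ⟨fun x t _ => mul_nonneg hl0.le (n1 _), ?_, ⟨?_, ?_, ?_, ?_⟩, ?_, ?_⟩
  · exact (cov_int T hT _ univ iu).const_mul l
  · intro t _ x
    have h := ((pot_all κ ε w hκ hw (t / T)).1 x).const_mul (c * l)
    refine h.congr (Eventually.of_forall fun y => ?_)
    simp only [vv]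
    rw [riesz_eq]; ring
  · intro t _ x
    exact (hasGrad c T l κ ε w hκ hw t x).differentiableAt
  · intro R
    have h1 : IntegrableOn (GG κ w) (Metric.ball (0 : E 3) R ×ˢ Ioo (0 : ℝ) 1) := by
      refine Measure.integrableOn_of_bounded (M := B3) ?_ m3.aestronglyMeasurable
        (ae_restrict_of_ae_restrict_of_subset (prod_mono (subset_univ _) subset_rfl) b3)
      rw [Measure.volume_eq_prod, Measure.prod_prod]
      exact ENNReal.mul_ne_top measure_ball_lt_top.ne (by simp)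
    have h2 := (cov_int T hT _ _ h1).smul (c * l / cc)
    refine h2.congr (Eventually.of_forall fun p => ?_)
    exact (grad_eq c T l κ ε w hκ hw p).symm
  · intro ψ hψ hψc hψs e
    have hψ' := contDiff_dil T ψ hψ
    have hco' : ∀ p : E 3 × ℝ, T * (p.2 / T) = p.2 := fun p => by field_simp
    have hWG := wgrad_all κ ε w hκ hw (fun q : E 3 × ℝ => ψ (q.1, T * q.2)) hψ' ?_ ?_ e
    · have h1 : ∀ p : E 3 × ℝ,
          pot (riesz c 3 (3 / 4)) (vv T l κ w) p.2 p.1 * fderiv ℝ ψ p (e, (0 : ℝ)) =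
          (fun q : E 3 × ℝ => (c * l / cc) * (cc *
            (∫ y : E 3, ‖q.1 - y‖ ^ (-(3 / 2) : ℝ) * uu κ w (y, q.2)) *
            fderiv ℝ (fun q : E 3 × ℝ => ψ (q.1, T * q.2)) q (e, (0 : ℝ)))) (p.1, p.2 / T) := by
        intro p
        simp only [pot_eq, fderiv_dil T ψ hψ, mul_zero, hco']
        ring
      have h2 : ∀ p : E 3 × ℝ,
          inner ℝ (gradPot (riesz c 3 (3 / 4)) (vv T l κ w) p) e * ψ p =
          (fun q : E 3 × ℝ => (c * l / cc) * (inner ℝ (GG κ w q) e *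
            (fun q : E 3 × ℝ => ψ (q.1, T * q.2)) q)) (p.1, p.2 / T) := by
        intro p
        simp only [grad_eq c T l κ ε w hκ hw, hco', real_inner_smul_left]
        ring
      simp only [h1, h2]
      rw [cov_eq' T hT (fun q : E 3 × ℝ => (c * l / cc) * (cc *
            (∫ y : E 3, ‖q.1 - y‖ ^ (-(3 / 2) : ℝ) * uu κ w (y, q.2)) *
            fderiv ℝ (fun q : E 3 × ℝ => ψ (q.1, T * q.2)) q (e, (0 : ℝ)))),
        cov_eq' T hT (fun q : E 3 × ℝ => (c * l / cc) * (inner ℝ (GG κ w q) e *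
            (fun q : E 3 × ℝ => ψ (q.1, T * q.2)) q)), integral_const_mul, integral_const_mul,
        hWG]
      simp only [smul_eq_mul]
      ring
    · have hcl : IsClosedEmbedding (fun q : E 3 × ℝ => (q.1, T * q.2)) := by
        have : (fun q : E 3 × ℝ => (q.1, T * q.2)) =
            (Homeomorph.prodCongr (Homeomorph.refl (E 3))
              (Homeomorph.mulLeft₀ T hT.ne')) := by
          funext q; rfl
        rw [this]
        exact Homeomorph.isClosedEmbedding _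
      exact hψc.comp_isClosedEmbedding hcl
    · intro p hp
      have h3 : (p.1, T * p.2) ∈ tsupport ψ := by
        have := tsupport_comp_subset_preimage ψ (f := fun q : E 3 × ℝ => (q.1, T * q.2))
          (by fun_prop) hp
        exact this
      have h4 := hψs h3
      refine ⟨mem_univ _, ?_⟩
      have h5 := h4.2
      simp only [mem_Ioo] at h5 ⊢
      constructor
      · by_contra h6
        nlinarith [h5.1]
      · nlinarith [h5.2]
  · have h2 := (cov_int T hT _ univ iflux).smul (l ^ ((3 / 2 : ℝ) - 1) * (c * l / cc))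
    refine h2.congr (Eventually.of_forall fun p => ?_)
    simp only [Pi.smul_apply]
    rw [grad_eq c T l κ ε w hκ hw p, hflux, smul_smul, smul_smul]
    congr 1
    ring
  · intro φ hφ
    obtain ⟨ψ, hψ1, hψ2, hψ3, hψ4, hψ5⟩ := cutoff T κ hT hκ φ hφ
    obtain ⟨i1, i2, i3⟩ := weak3_all κ ε w hκ hw ψ hψ1 hψ2 hψ3
    have e1 : ∀ p ∈ (univ ×ˢ Ioo (0 : ℝ) T : Set (E 3 × ℝ)),
        vv T l κ w p * fderiv ℝ φ p ((0 : E 3), (1 : ℝ)) =
        l / T * (fun q : E 3 × ℝ => uu κ w q * fderiv ℝ ψ q ((0 : E 3), (1 : ℝ)))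
          (p.1, p.2 / T) := by
      rintro ⟨x, t⟩ ⟨_, ht⟩
      simp only [vv]
      by_cases hx : ‖x‖ ≤ Real.exp κ
      · have h1 := hψ5 x hx t ht 0 1
        have h2 : fderiv ℝ φ (x, t) ((0 : E 3), T * 1) =
            T * fderiv ℝ φ (x, t) ((0 : E 3), (1 : ℝ)) := by
          have : ((0 : E 3), T * 1) = T • ((0 : E 3), (1 : ℝ)) := by simp
          rw [this, map_smul, smul_eq_mul]
        rw [h1, h2]
        field_simp
      · rw [hzero x (t / T) ((div_le_one hT).2 ht.2.le) (not_le.1 hx)]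
        ring
    have e2 : ∀ p ∈ (univ ×ˢ Ioo (0 : ℝ) T : Set (E 3 × ℝ)),
        vv T l κ w p ^ ((3 / 2 : ℝ) - 1) *
          fderiv ℝ φ p (gradPot (riesz c 3 (3 / 4)) (vv T l κ w) p, (0 : ℝ)) =
        l / T * (fun q : E 3 × ℝ => uu κ w q ^ ((3 / 2 : ℝ) - 1) *
          fderiv ℝ ψ q (GG κ w q, (0 : ℝ))) (p.1, p.2 / T) := by
      rintro ⟨x, t⟩ ⟨_, ht⟩
      rw [hflux]
      simp only
      by_cases hx : ‖x‖ ≤ Real.exp κ
      · have h1 := hψ5 x hx t ht (GG κ w (x, t / T)) 0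
        rw [mul_zero] at h1
        have h2 : fderiv ℝ φ (x, t)
            (gradPot (riesz c 3 (3 / 4)) (vv T l κ w) (x, t), (0 : ℝ)) =
            (c * l / cc) * fderiv ℝ φ (x, t) (GG κ w (x, t / T), (0 : ℝ)) := by
          rw [grad_eq c T l κ ε w hκ hw]
          have : ((c * l / cc) • GG κ w (x, t / T), (0 : ℝ)) =
              (c * l / cc) • (GG κ w (x, t / T), (0 : ℝ)) := by simp
          simp only
          rw [this, map_smul, smul_eq_mul]
        rw [h1, h2, ← hco]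
        ring
      · rw [hzero x (t / T) ((div_le_one hT).2 ht.2.le) (not_le.1 hx),
          Real.zero_rpow (by norm_num)]
        ring
    have hms : MeasurableSet (univ ×ˢ Ioo (0 : ℝ) T : Set (E 3 × ℝ)) :=
      MeasurableSet.univ.prod measurableSet_Ioo
    refine ⟨?_, ?_, ?_, ?_⟩
    · refine IntegrableOn.congr_fun ?_ (fun p hp => (e1 p hp).symm) hms
      exact (cov_int T hT _ univ i1).const_mul (l / T)
    · refine IntegrableOn.congr_fun ?_ (fun p hp => (e2 p hp).symm) hms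
      exact (cov_int T hT _ univ i2).const_mul (l / T)
    · have h1 : (fun x : E 3 => l * u0 x * φ (x, (0 : ℝ))) =
          (Metric.closedBall (0 : E 3) 1).indicator (fun x => l * φ (x, (0 : ℝ))) := by
        rw [u0_eq]
        funext x
        by_cases h : x ∈ Metric.closedBall (0 : E 3) 1
        · rw [indicator_of_mem h, indicator_of_mem h, mul_one]
        · rw [indicator_of_notMem h, indicator_of_notMem h]; ring
      rw [h1, integrable_indicator_iff measurableSet_closedBall]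
      have hcφ := hφ.smooth.continuous
      refine ContinuousOn.integrableOn_compact (isCompact_closedBall _ _) ?_
      exact (by fun_prop : Continuous fun x : E 3 => l * φ (x, (0 : ℝ))).continuousOn
    · have h0 : (∫ x : E 3, l * u0 x * φ (x, (0 : ℝ))) = l * ∫ x : E 3, u0 x * ψ (x, (0 : ℝ)) := by
        rw [← integral_const_mul]
        refine integral_congr_ae (Eventually.of_forall fun x => ?_)
        simp only
        by_cases hx : ‖x‖ ≤ 1
        · rw [hψ4 x hx]; ring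
        · have : u0 x = 0 := by unfold u0; rw [if_neg hx]
          rw [this]; ring
      unfold QT timeTerm fluxTerm
      rw [setIntegral_congr_fun hms e1, setIntegral_congr_fun hms e2, integral_const_mul,
        integral_const_mul,
        cov_eq T hT (fun q : E 3 × ℝ => uu κ w q * fderiv ℝ ψ q ((0 : E 3), (1 : ℝ))),
        cov_eq T hT (fun q : E 3 × ℝ => uu κ w q ^ ((3 / 2 : ℝ) - 1) *
          fderiv ℝ ψ q (GG κ w q, (0 : ℝ))), h0]
      have h3 : ∀ a : ℝ, l / T * (T * a) = l * a := fun a => by field_simp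
      rw [h3, h3, ← mul_sub, ← mul_add, i3, mul_zero]

/-- **Disproof of Q1.** For `N = 3`, `m = 3/2`, `s = 3/4`, every constant `c > 0` in the kernel
`c |x|^{-(N-2s)}` and every `T > 0` there is a bounded weak solution whose datum is a positive
multiple of the indicator of the closed unit ball and which vanishes, for all times in `(0,T)`,
outside a fixed ball. In particular (with `c = c(N,s)⁻¹`) Q1 is false. -/
theorem result :
    (∀ c > 0, ∀ T > 0, ∃ (l : ℝ) (u : E 3 × ℝ → ℝ), 0 < l ∧ Datum (bump l) ∧ Measurable u ∧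
      BddOn T u ∧ IsWeakSol (riesz c 3 (3 / 4)) (3 / 2) T (bump l) u ∧ StaysInBall T u) ∧
    ¬ Q1 := by
  have main : ∀ c > 0, ∀ T > 0, ∃ (l : ℝ) (u : E 3 × ℝ → ℝ), 0 < l ∧ Datum (bump l) ∧
      Measurable u ∧ BddOn T u ∧ IsWeakSol (riesz c 3 (3 / 4)) (3 / 2) T (bump l) u ∧
      StaysInBall T u := by
    intro c hc T hT
    set κ : ℝ := min (1 / 10) (AA / 20) with hκ
    have hA := AA_pos
    have h0 : 0 < κ := lt_min (by norm_num) (by positivity)
    obtain ⟨w, hw⟩ := core_all AA κ (κ / 100) hA h0 (by positivity)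
      (zero_all κ h0 (min_le_left _ _) (min_le_right _ _))
    obtain ⟨m1, n1, ⟨B1, b1⟩, -⟩ := bounds_all κ _ w h0 hw
    have hcc := cc_pos
    have hl : 0 < (cc / (c * T)) ^ 2 := by positivity
    refine ⟨(cc / (c * T)) ^ 2, vv T ((cc / (c * T)) ^ 2) κ w, hl, datum _ hl, ?_, ?_, ?_, ?_⟩
    · exact (m1.comp (measE T hT).measurable).const_mul _
    · refine ⟨(cc / (c * T)) ^ 2 * B1, fun x t ht => ?_⟩
      exact mul_le_mul_of_nonneg_left (b1 _ (div_nonneg ht.1.le hT.le)) hl.le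
    · exact isWeakSol c T κ _ w hc hT h0 hw _ rfl
    · refine ⟨Real.exp κ, fun t ht x hx => ?_⟩
      show (cc / (c * T)) ^ 2 * uu κ w (x, t / T) = 0
      rw [uu_zero κ _ w h0 hw x _ ((div_le_one hT).2 ht.2.le) hx, mul_zero]
  refine ⟨main, fun hQ => ?_⟩
  have hcN : 0 < (cNs 3 (3 / 4))⁻¹ := by
    unfold cNs
    have h1 : 0 < Real.Gamma (3 / 4 : ℝ) := Real.Gamma_pos_of_pos (by norm_num)
    have h2 : 0 < Real.Gamma ((((3 : ℕ) : ℝ) - 2 * (3 / 4)) / 2) :=
      Real.Gamma_pos_of_pos (by norm_num)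
    have h3 := Real.pi_pos
    positivity
  obtain ⟨l, u, -, hd, hm, hb, hw, R, hR⟩ := main _ hcN 1 one_pos
  have h1 := hQ 3 (by norm_num) (3 / 2) ⟨by norm_num, by norm_num⟩ (3 / 4)
    ⟨by norm_num, by norm_num⟩ 1 one_pos _ u hd hm hb hw (1 / 2) ⟨by norm_num, by norm_num⟩
    (|R| + 1) (by positivity)
  have h2 : {x : E 3 | |R| + 1 ≤ ‖x‖ ∧ 0 < u (x, 1 / 2)} = ∅ := by
    ext x
    simp only [mem_ofPred_eq, mem_empty_iff_false, iff_false, not_and, not_lt]
    intro hx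
    rw [hR (1 / 2) ⟨by norm_num, by norm_num⟩ x (by linarith [le_abs_self R])]
  rw [h2, measure_empty] at h1
  exact lt_irrefl _ h1

end Pool.Agent.Results.MP_4eb066_an.FiniteSpeed
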